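import Pool.Agent.W128.VA.Stm

/-! Project VA, part HE: the commutators `[h_m, e_n]`. -/

set_option autoImplicit false

namespace Pool.Agent.W925.VA.HE

open Pool.Agent.W128.VA

theorem key (h : S_EOPC) (σ m k s : ℤ) (p : R0) :
    hR m (k + σ) (eop σ s p) - eop σ s (hR m k p) = (2 * (σ : ℂ)) • eop σ (s - m) p := by
  obtain ⟨h1, h2, -⟩ := h σ s
  rcases lt_trichotomy m 0 with hm | hm | hm
  · obtain ⟨i, rfl⟩ : ∃ i : ℕ, m = -((i : ℤ) + 1) := ⟨(-m - 1).toNat, by omega⟩
    have e1 : (-(-((i : ℤ) + 1)) - 1).toNat = i := by omega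
    have e2 : s - -((i : ℤ) + 1) = s + (i + 1) := by ring
    simp only [hR, if_pos hm, e1, LinearMap.mulLeft_apply]
    rw [h1 i p, e2]
    abel
  · subst hm
    simp only [hR, lt_irrefl, if_false, if_true, LinearMap.smul_apply, LinearMap.id_apply,
      map_smul, sub_zero]
    rw [← sub_smul]
    congr 1
    push_cast
    ring
  · obtain ⟨i, rfl⟩ : ∃ i : ℕ, m = (i : ℤ) + 1 := ⟨(m - 1).toNat, by omega⟩
    have e1 : ((i : ℤ) + 1 - 1).toNat = i := by omega
    simp only [hR, if_neg (show ¬ ((i : ℤ) + 1 < 0) by omega),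
      if_neg (show ¬ ((i : ℤ) + 1 = 0) by omega), e1, LinearMap.smul_apply, map_smul]
    have e3 : (MvPolynomial.pderiv i : Derivation ℂ R0 R0).toLinearMap (eop σ s p)
        = MvPolynomial.pderiv i (eop σ s p) := rfl
    have e4 : (MvPolynomial.pderiv i : Derivation ℂ R0 R0).toLinearMap p
        = MvPolynomial.pderiv i p := rfl
    rw [e3, e4, h2 i p, smul_add, add_sub_cancel_left, smul_smul]
    congr 1
    have h3 : ((i : ℂ) + 1) ≠ 0 := by exact_mod_cast Nat.succ_ne_zero i
    push_cast
    field_simp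

theorem main : S_EOPC → S_HE := by
  intro h σ m n v
  induction v using Finsupp.induction_linear with
  | zero => simp
  | add a b ha hb =>
    simp only [map_add]
    rw [smul_add, ← ha, ← hb]
    abel
  | single k p =>
    simp only [hop_single, eV_single]
    rw [← Finsupp.single_sub, key h, Finsupp.smul_single]
    have e : -n - 1 - 2 * σ * k - m = -(m + n) - 1 - 2 * σ * k := by ring
    rw [e]

end Pool.Agent.W925.VA.HE
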